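import Pool.Agent.H5.Short.Second

/-!
# Prime pairs and primes in an arbitrary interval `(M, M + X]` (upper bounds)

The proofs of `H5/W/PairSieve` and `H5/Short/Pairs` for intervals.
-/

set_option autoImplicit false

namespace Pool.Agent.H24.LJ

open Finset Pool.Agent.H5.W Pool.Agent.H5.Short

theorem pair_sieve_loc : ∃ C : ℝ, 0 < C ∧ ∀ J m m' w w' A V : ℕ, 2 ≤ J → 0 < w → 0 < w' → m ≠ m' →
    ∀ S : Finset ℕ, (∀ v ∈ S, A < v ∧ v ≤ A + V ∧ ∃ p p' : ℕ, p.Prime ∧ p'.Prime ∧ J < p ∧ J < p' ∧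
      v = m + p * w ∧ v = m' + p' * w') →
    (S.card : ℝ) ≤ C * ((V : ℝ) * (Nat.gcd w w') / (w * w')) * (rhoz J (EE m m' w w')) ^ 2 /
      (Real.log J) ^ 2 + (J : ℝ) ^ 4 := by
  obtain ⟨c, hc, hS2⟩ := sieveSum_two_ge
  refine ⟨1 / c, by positivity, ?_⟩
  intro J m m' w w' A V hJ hw hw' hm S hS
  have hlog : 0 < Real.log J := Real.log_pos (by exact_mod_cast hJ)
  have hE := EE_pos hw hw' hm
  set E := EE m m' w w' with hEdef
  rcases S.eq_empty_or_nonempty with rfl | ⟨v0, hv0⟩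
  · simp only [card_empty, Nat.cast_zero]
    positivity
  have hg : 0 < Nat.gcd w w' := Nat.gcd_pos_of_pos_left _ hw
  have hlcm : 0 < Nat.lcm w w' := Nat.lcm_pos hw hw'
  have hgood : ∀ l ∈ goodPrimes J E, l.Prime ∧ l ≤ J ∧ l ≠ 2 ∧ ¬ l ∣ w ∧ ¬ l ∣ w' ∧
      ¬ (l : ℤ) ∣ (m : ℤ) - m' := by
    intro l hl
    rw [goodPrimes, mem_filter, mem_range] at hl
    obtain ⟨h1, h2, h3⟩ := hl
    rw [hEdef, EE] at h3
    refine ⟨h2, by omega, ?_, ?_, ?_, ?_⟩
    · rintro rfl
      exact h3 (by rw [mul_assoc, mul_assoc]; exact dvd_mul_right _ _)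
    · intro h
      exact h3 (((h.mul_left 2).mul_right w').mul_right _)
    · intro h
      exact h3 ((h.mul_left (2 * w)).mul_right _)
    · intro h
      have := Int.natCast_dvd.mp h
      exact h3 (this.mul_left _)
  have key := selberg_count 2 J E (Nat.lcm w w') v0 A V (by norm_num) (by omega) hlcm
    (by
      intro l hl hdvd
      obtain ⟨h1, -, -, h4, h5, -⟩ := hgood l hl
      have h6 : l ∣ w * w' := hdvd.trans (Nat.lcm_dvd_mul w w')
      rcases (Nat.Prime.dvd_mul h1).mp h6 with h7 | h7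
      · exact h4 h7
      · exact h5 h7)
    (by
      intro l hl
      obtain ⟨h1, -, h3, -⟩ := hgood l hl
      have := h1.two_le
      omega)
    (fun l => {m % l, m' % l})
    (by
      intro l hl
      obtain ⟨h1, -, h3, -, -, h6⟩ := hgood l hl
      rw [card_pair]
      intro h
      apply h6
      have h7 : m' ≡ m [MOD l] := h.symm
      exact (Nat.modEq_iff_dvd.mp h7))
    (by
      intro l hl a ha
      obtain ⟨h1, -⟩ := hgood l hl
      rw [mem_insert, mem_singleton] at ha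
      rcases ha with rfl | rfl
      · exact Nat.mod_lt _ h1.pos
      · exact Nat.mod_lt _ h1.pos)
  have hcard : (S.card : ℝ) ≤ ((((Ioc A (A + V)).filter (fun v => v ≡ v0 [MOD (Nat.lcm w w')] ∧
      ∀ l ∈ goodPrimes J E, v % l ∉ ({m % l, m' % l} : Finset ℕ))).card : ℕ) : ℝ) := by
    norm_cast
    apply card_le_card
    intro v hv
    obtain ⟨hvpos, hvV, p, p', hp, hp', hpJ, hp'J, hvp, hvp'⟩ := hS v hv
    obtain ⟨-, -, p0, p0', -, -, -, -, h0, h0'⟩ := hS v0 hv0
    rw [mem_filter, mem_Ioc]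
    refine ⟨⟨hvpos, by omega⟩, ?_, ?_⟩
    · rw [Nat.modEq_iff_dvd]
      rw [Int.natCast_dvd]
      apply Nat.lcm_dvd
      · rw [← Int.natCast_dvd]
        refine ⟨(p0 : ℤ) - p, ?_⟩
        rw [h0, hvp]; push_cast; ring
      · rw [← Int.natCast_dvd]
        refine ⟨(p0' : ℤ) - p', ?_⟩
        rw [h0', hvp']; push_cast; ring
    · intro l hl
      obtain ⟨h1, h2, h3, h4, h5, h6⟩ := hgood l hl
      rw [mem_insert, mem_singleton, not_or]
      constructor
      · intro h
        have h7 : m ≡ v [MOD l] := h.symm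
        rw [Nat.modEq_iff_dvd, hvp] at h7
        have h8 : (l : ℤ) ∣ ((p * w : ℕ) : ℤ) := by
          have : ((m + p * w : ℕ) : ℤ) - m = ((p * w : ℕ) : ℤ) := by push_cast; ring
          rwa [this] at h7
        have h9 : l ∣ p * w := by exact_mod_cast h8
        rcases (Nat.Prime.dvd_mul h1).mp h9 with h10 | h10
        · have := (Nat.prime_dvd_prime_iff_eq h1 hp).mp h10
          omega
        · exact h4 h10
      · intro h
        have h7 : m' ≡ v [MOD l] := h.symm
        rw [Nat.modEq_iff_dvd, hvp'] at h7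
        have h8 : (l : ℤ) ∣ ((p' * w' : ℕ) : ℤ) := by
          have : ((m' + p' * w' : ℕ) : ℤ) - m' = ((p' * w' : ℕ) : ℤ) := by push_cast; ring
          rwa [this] at h7
        have h9 : l ∣ p' * w' := by exact_mod_cast h8
        rcases (Nat.Prime.dvd_mul h1).mp h9 with h10 | h10
        · have := (Nat.prime_dvd_prime_iff_eq h1 hp').mp h10
          omega
        · exact h5 h10
  have hrz := rhoz_pos J E
  have hSlow := hS2 J E (by omega) hE
  have hlow : 0 < c * Real.log J ^ 2 / rhoz J E ^ 2 := by positivity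
  have hlcmR : ((Nat.lcm w w' : ℕ) : ℝ) = (w : ℝ) * w' / (Nat.gcd w w') := by
    rw [eq_div_iff (by positivity)]
    have := Nat.gcd_mul_lcm w w'
    rw [mul_comm]
    exact_mod_cast this
  have hwR : (0 : ℝ) < w := by exact_mod_cast hw
  have hw'R : (0 : ℝ) < w' := by exact_mod_cast hw'
  have hgR : (0 : ℝ) < (Nat.gcd w w' : ℕ) := by exact_mod_cast hg
  calc (S.card : ℝ) ≤ _ := hcard
    _ ≤ ((V : ℝ) / (Nat.lcm w w' : ℕ)) / sieveSum 2 J E + (J : ℝ) ^ 4 := key
    _ ≤ ((V : ℝ) / (Nat.lcm w w' : ℕ)) / (c * Real.log J ^ 2 / rhoz J E ^ 2) +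
        (J : ℝ) ^ 4 := by gcongr
    _ = 1 / c * ((V : ℝ) * (Nat.gcd w w') / (w * w')) * (rhoz J E) ^ 2 /
      (Real.log J) ^ 2 + (J : ℝ) ^ 4 := by
        rw [hlcmR]
        field_simp

theorem pairs_loc : ∃ C : ℝ, 0 < C ∧ ∀ M X d : ℕ, 2 ≤ X → 1 ≤ d →
    (((Ioc M (M + X)).filter (fun p => p.Prime ∧ (p + d).Prime)).card : ℝ) ≤
      C * (1 + ∑ p ∈ (2 * d).primeFactors, 1 / Real.sqrt p) * X / (Real.log X) ^ 2 := by
  obtain ⟨C0, hC0, hps⟩ := pair_sieve_loc
  obtain ⟨C1, hC1, hU⟩ := lemmaU 2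
  refine ⟨200 + 200 * C0 * C1, by positivity, ?_⟩
  intro M X d hX hd
  have hXR : (2 : ℝ) ≤ X := by exact_mod_cast hX
  have hX0 : (0 : ℝ) < X := by linarith
  have hlog : 0 < Real.log X := Real.log_pos (by linarith)
  have hlogsq := log_sq_le X (by linarith)
  have hsum0 : 0 ≤ ∑ p ∈ (2 * d).primeFactors, 1 / Real.sqrt p :=
    sum_nonneg fun p _ => by positivity
  have hcardX : (((Ioc M (M + X)).filter (fun p => p.Prime ∧ (p + d).Prime)).card : ℝ) ≤ X := by
    have : ((Ioc M (M + X)).filter (fun p => p.Prime ∧ (p + d).Prime)).card ≤ X := by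
      calc _ ≤ (Ioc M (M + X)).card := card_le_card (filter_subset _ _)
        _ = X := by rw [Nat.card_Ioc]; omega
    exact_mod_cast this
  rcases lt_or_ge X 32 with hsmall | hlarge
  · -- small X
    refine hcardX.trans ?_
    rw [le_div_iff₀ (by positivity)]
    have h1 : (Real.log X) ^ 2 ≤ 200 := by
      have h2 : (X : ℝ) ^ ((1 : ℝ) / 5) ≤ 2 := by
        have h3 : (X : ℝ) ≤ 32 := by exact_mod_cast hsmall.le
        calc (X : ℝ) ^ ((1 : ℝ) / 5) ≤ (32 : ℝ) ^ ((1 : ℝ) / 5) := by gcongr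
          _ = 2 := by
            rw [show (32 : ℝ) = 2 ^ (5 : ℝ) by norm_num, ← Real.rpow_mul (by norm_num)]
            norm_num
      linarith
    have h4 : 200 ≤ (200 + 200 * C0 * C1) * (1 + ∑ p ∈ (2 * d).primeFactors, 1 / Real.sqrt p) := by
      have : 0 ≤ 200 * C0 * C1 := by positivity
      nlinarith
    calc (X : ℝ) * (Real.log X) ^ 2 ≤ X * 200 := by gcongr
      _ ≤ X * ((200 + 200 * C0 * C1) * (1 + ∑ p ∈ (2 * d).primeFactors, 1 / Real.sqrt p)) := by
          gcongr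
      _ = _ := by ring
  · -- large X
    set J : ℕ := ⌊(X : ℝ) ^ ((1 : ℝ) / 5)⌋₊ with hJdef
    have hroot0 : (0 : ℝ) ≤ (X : ℝ) ^ ((1 : ℝ) / 5) := by positivity
    have hroot : ((X : ℝ) ^ ((1 : ℝ) / 5)) ^ 5 = X := by
      rw [← Real.rpow_natCast, ← Real.rpow_mul hX0.le]; norm_num
    have hJ2 : 2 ≤ J := by
      rw [hJdef]
      apply Nat.le_floor
      push_cast
      calc (2 : ℝ) = (32 : ℝ) ^ ((1 : ℝ) / 5) := by
            rw [show (32 : ℝ) = 2 ^ (5 : ℝ) by norm_num, ← Real.rpow_mul (by norm_num)]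
            norm_num
        _ ≤ (X : ℝ) ^ ((1 : ℝ) / 5) := by
            apply Real.rpow_le_rpow (by norm_num) (by exact_mod_cast hlarge) (by norm_num)
    have hJle : (J : ℝ) ≤ (X : ℝ) ^ ((1 : ℝ) / 5) := Nat.floor_le hroot0
    have hJlt : (X : ℝ) ^ ((1 : ℝ) / 5) < J + 1 := Nat.lt_floor_add_one _
    have hJR : (2 : ℝ) ≤ J := by exact_mod_cast hJ2
    have hlogJ : 0 < Real.log J := Real.log_pos (by linarith)
    have hXJ : (X : ℝ) ≤ (J : ℝ) ^ 10 := by
      calc (X : ℝ) = ((X : ℝ) ^ ((1 : ℝ) / 5)) ^ 5 := hroot.symm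
        _ ≤ ((J : ℝ) + 1) ^ 5 := by gcongr
        _ ≤ ((J : ℝ) ^ 2) ^ 5 := by
            gcongr
            nlinarith
        _ = (J : ℝ) ^ 10 := by ring
    have hlogXJ : Real.log X ≤ 10 * Real.log J := by
      have := Real.log_le_log hX0 hXJ
      rw [Real.log_pow] at this
      push_cast at this
      exact this
    have hJ4 : (J : ℝ) ^ 4 ≤ 100 * X / (Real.log X) ^ 2 := by
      rw [le_div_iff₀ (by positivity)]
      calc (J : ℝ) ^ 4 * (Real.log X) ^ 2 ≤
          ((X : ℝ) ^ ((1 : ℝ) / 5)) ^ 4 * (100 * (X : ℝ) ^ ((1 : ℝ) / 5)) := by gcongr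
        _ = 100 * ((X : ℝ) ^ ((1 : ℝ) / 5)) ^ 5 := by ring
        _ = 100 * X := by rw [hroot]
    -- the set
    set S : Finset ℕ := ((Ioc M (M + X)).filter (fun p => p.Prime ∧ (p + d).Prime ∧ J < p)).image
      (fun p => p + d) with hS
    have hScard : S.card = ((Ioc M (M + X)).filter (fun p => p.Prime ∧ (p + d).Prime ∧ J < p)).card := by
      rw [hS]
      apply card_image_of_injective
      intro a b h
      simpa using h
    have hsplit : ((Ioc M (M + X)).filter (fun p => p.Prime ∧ (p + d).Prime)).card ≤ J + S.card := by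
      rw [hScard]
      have hsub : (Ioc M (M + X)).filter (fun p => p.Prime ∧ (p + d).Prime) ⊆
          Icc 1 J ∪ (Ioc M (M + X)).filter (fun p => p.Prime ∧ (p + d).Prime ∧ J < p) := by
        intro p hp
        rw [mem_filter, mem_Ioc] at hp
        rw [mem_union, mem_filter, mem_Icc, mem_Ioc]
        by_cases h : p ≤ J
        · left; exact ⟨hp.2.1.one_lt.le, h⟩
        · right; exact ⟨hp.1, hp.2.1, hp.2.2, by omega⟩
      refine (card_le_card hsub).trans ((card_union_le _ _).trans ?_)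
      rw [Nat.card_Icc]
      omega
    have hkey := hps J d 0 1 1 (M + d) (2 * X) hJ2 one_pos one_pos (by omega) S (by
      intro v hv
      rw [hS, mem_image] at hv
      obtain ⟨p, hp, rfl⟩ := hv
      rw [mem_filter, mem_Ioc] at hp
      obtain ⟨⟨h1, h2⟩, h3, h4, h5⟩ := hp
      exact ⟨by omega, by omega, p, p + d, h3, h4, h5, by omega, by ring, by ring⟩)
    have hE : EE d 0 1 1 = 2 * d := by
      unfold EE
      simp
    rw [hE] at hkey
    have hrz : (rhoz J (2 * d)) ^ 2 ≤ C1 * (1 + ∑ p ∈ (2 * d).primeFactors, 1 / Real.sqrt p) := by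
      have h1 := rhoz_le_rho J (2 * d) (by omega)
      have h2 := hU (2 * d).primeFactors (fun p hp => Nat.prime_of_mem_primeFactors hp)
      have h3 := (rhoz_pos J (2 * d)).le
      calc (rhoz J (2 * d)) ^ 2 ≤ (rho (2 * d)) ^ 2 := by gcongr
        _ ≤ _ := h2
    have hkey2 : (S.card : ℝ) ≤ 200 * C0 * C1 * (1 + ∑ p ∈ (2 * d).primeFactors, 1 / Real.sqrt p) *
        X / (Real.log X) ^ 2 + (J : ℝ) ^ 4 := by
      refine hkey.trans ?_
      gcongr ?_ + _
      have e1 : C0 * (((2 * X : ℕ) : ℝ) * (Nat.gcd 1 1) / (((1 : ℕ) : ℝ) * ((1 : ℕ) : ℝ))) *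
          rhoz J (2 * d) ^ 2 / Real.log J ^ 2 =
          (2 * C0 * X) * (rhoz J (2 * d) ^ 2) / Real.log J ^ 2 := by
        push_cast
        simp
        ring
      rw [e1, div_le_div_iff₀ (by positivity) (by positivity)]
      have h5 : (Real.log X) ^ 2 ≤ 100 * (Real.log J) ^ 2 := by
        calc (Real.log X) ^ 2 ≤ (10 * Real.log J) ^ 2 := by gcongr
          _ = _ := by ring
      calc (2 * C0 * X) * (rhoz J (2 * d) ^ 2) * (Real.log X) ^ 2
          ≤ (2 * C0 * X) * (C1 * (1 + ∑ p ∈ (2 * d).primeFactors, 1 / Real.sqrt p)) *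
            (100 * (Real.log J) ^ 2) := by gcongr
        _ = _ := by ring
    have hJJ : (J : ℝ) ≤ (J : ℝ) ^ 4 := by
      calc (J : ℝ) = (J : ℝ) ^ 1 := (pow_one _).symm
        _ ≤ (J : ℝ) ^ 4 := pow_le_pow_right₀ (by linarith) (by norm_num)
    have hfin : (((Ioc M (M + X)).filter (fun p => p.Prime ∧ (p + d).Prime)).card : ℝ) ≤
        (J : ℝ) + S.card := by exact_mod_cast hsplit
    have h200 : 200 * X / (Real.log X) ^ 2 ≤
        200 * (1 + ∑ p ∈ (2 * d).primeFactors, 1 / Real.sqrt p) * X / (Real.log X) ^ 2 := by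
      gcongr
      nlinarith
    calc (((Ioc M (M + X)).filter (fun p => p.Prime ∧ (p + d).Prime)).card : ℝ)
        ≤ (J : ℝ) + S.card := hfin
      _ ≤ 2 * (J : ℝ) ^ 4 + 200 * C0 * C1 * (1 + ∑ p ∈ (2 * d).primeFactors, 1 / Real.sqrt p) *
            X / (Real.log X) ^ 2 := by linarith
      _ ≤ 2 * (100 * X / (Real.log X) ^ 2) + 200 * C0 * C1 *
            (1 + ∑ p ∈ (2 * d).primeFactors, 1 / Real.sqrt p) * X / (Real.log X) ^ 2 := by
          gcongr
      _ = 200 * X / (Real.log X) ^ 2 + 200 * C0 * C1 *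
            (1 + ∑ p ∈ (2 * d).primeFactors, 1 / Real.sqrt p) * X / (Real.log X) ^ 2 := by ring
      _ ≤ 200 * (1 + ∑ p ∈ (2 * d).primeFactors, 1 / Real.sqrt p) * X / (Real.log X) ^ 2 +
            200 * C0 * C1 * (1 + ∑ p ∈ (2 * d).primeFactors, 1 / Real.sqrt p) * X /
            (Real.log X) ^ 2 := by linarith
      _ = _ := by ring


theorem pi_loc : ∃ C : ℝ, 0 < C ∧ ∀ M X : ℕ, 2 ≤ X →
    (((Ioc M (M + X)).filter Nat.Prime).card : ℝ) ≤ C * X / Real.log X := by
  refine ⟨1000, by norm_num, ?_⟩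
  intro M X hX
  have hXR : (2 : ℝ) ≤ X := by exact_mod_cast hX
  have hX0 : (0 : ℝ) < X := by linarith
  have hlog : 0 < Real.log X := Real.log_pos (by linarith)
  have hlogsq := log_sq_le X (by linarith)
  have hcardX : (((Ioc M (M + X)).filter Nat.Prime).card : ℝ) ≤ X := by
    have : ((Ioc M (M + X)).filter Nat.Prime).card ≤ X := by
      calc _ ≤ (Ioc M (M + X)).card := card_le_card (filter_subset _ _)
        _ = X := by rw [Nat.card_Ioc]; omega
    exact_mod_cast this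
  rcases lt_or_ge X 32 with hsmall | hlarge
  · refine hcardX.trans ?_
    rw [le_div_iff₀ hlog]
    have h1 : Real.log X ≤ 1000 := by
      have h2 := Real.log_le_sub_one_of_pos hX0
      have h3 : (X : ℝ) ≤ 32 := by exact_mod_cast hsmall.le
      linarith
    nlinarith
  · set J : ℕ := ⌊(X : ℝ) ^ ((1 : ℝ) / 5)⌋₊ with hJdef
    have hroot0 : (0 : ℝ) ≤ (X : ℝ) ^ ((1 : ℝ) / 5) := by positivity
    have hroot : ((X : ℝ) ^ ((1 : ℝ) / 5)) ^ 5 = X := by
      rw [← Real.rpow_natCast, ← Real.rpow_mul hX0.le]; norm_num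
    have hJ2 : 2 ≤ J := by
      rw [hJdef]
      apply Nat.le_floor
      push_cast
      calc (2 : ℝ) = (32 : ℝ) ^ ((1 : ℝ) / 5) := by
            rw [show (32 : ℝ) = 2 ^ (5 : ℝ) by norm_num, ← Real.rpow_mul (by norm_num)]
            norm_num
        _ ≤ (X : ℝ) ^ ((1 : ℝ) / 5) := by
            apply Real.rpow_le_rpow (by norm_num) (by exact_mod_cast hlarge) (by norm_num)
    have hJle : (J : ℝ) ≤ (X : ℝ) ^ ((1 : ℝ) / 5) := Nat.floor_le hroot0
    have hJlt : (X : ℝ) ^ ((1 : ℝ) / 5) < J + 1 := Nat.lt_floor_add_one _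
    have hJR : (2 : ℝ) ≤ J := by exact_mod_cast hJ2
    have hlogJ : 0 < Real.log J := Real.log_pos (by linarith)
    have hXJ : (X : ℝ) ≤ (J : ℝ) ^ 10 := by
      calc (X : ℝ) = ((X : ℝ) ^ ((1 : ℝ) / 5)) ^ 5 := hroot.symm
        _ ≤ ((J : ℝ) + 1) ^ 5 := by gcongr
        _ ≤ ((J : ℝ) ^ 2) ^ 5 := by
            gcongr
            nlinarith
        _ = (J : ℝ) ^ 10 := by ring
    have hlogXJ : Real.log X ≤ 10 * Real.log J := by
      have := Real.log_le_log hX0 hXJ
      rw [Real.log_pow] at this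
      push_cast at this
      exact this
    have hlog1 : 1 ≤ Real.log X := by
      have h1 : Real.exp 1 ≤ X := by
        have := Real.exp_one_lt_d9
        have h3 : (32 : ℝ) ≤ X := by exact_mod_cast hlarge
        linarith
      rwa [← Real.le_log_iff_exp_le hX0] at h1
    have hJ4 : (J : ℝ) ^ 4 ≤ 100 * X / Real.log X := by
      rw [le_div_iff₀ hlog]
      calc (J : ℝ) ^ 4 * Real.log X ≤
          ((X : ℝ) ^ ((1 : ℝ) / 5)) ^ 4 * (100 * (X : ℝ) ^ ((1 : ℝ) / 5)) := by
            have : Real.log X ≤ 100 * (X : ℝ) ^ ((1 : ℝ) / 5) := by nlinarith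
            gcongr
        _ = 100 * ((X : ℝ) ^ ((1 : ℝ) / 5)) ^ 5 := by ring
        _ = 100 * X := by rw [hroot]
    have h1 := selberg_count 1 J 1 1 0 M X le_rfl (by omega) one_pos
      (by
        intro l hl
        rw [goodPrimes, mem_filter] at hl
        exact hl.2.2)
      (by
        intro l hl
        rw [goodPrimes, mem_filter] at hl
        exact hl.2.1.one_lt)
      (fun _ => {0}) (by intro l _; simp)
      (by
        intro l hl a ha
        rw [goodPrimes, mem_filter] at hl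
        rw [mem_singleton] at ha
        rw [ha]; exact hl.2.1.pos)
    have h2 := sieveSum_one_ge J 1 (by omega) one_pos
    have hrz := rhoz_pos J 1
    have hrz1 : rhoz J 1 ≤ 1 := by
      have h3 := rhoz_le_rho J 1 one_ne_zero
      have h4 : rho 1 = 1 := by
        unfold rho
        simp
      rwa [h4] at h3
    have hsub : (Ioc M (M + X)).filter Nat.Prime ⊆ Icc 1 J ∪ ((Ioc M (M + X)).filter (fun v => v ≡ 0 [MOD 1] ∧
        ∀ l ∈ goodPrimes J 1, v % l ∉ ({0} : Finset ℕ))) := by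
      intro p hp
      rw [mem_filter, mem_Ioc] at hp
      rw [mem_union, mem_Icc, mem_filter, mem_Ioc]
      by_cases h : p ≤ J
      · left; exact ⟨hp.2.one_lt.le, h⟩
      · right
        refine ⟨hp.1, Nat.modEq_one, ?_⟩
        intro l hl
        rw [goodPrimes, mem_filter, mem_range] at hl
        rw [mem_singleton]
        intro h0
        have hd : l ∣ p := Nat.dvd_of_mod_eq_zero h0
        have := (Nat.prime_dvd_prime_iff_eq hl.2.1 hp.2).mp hd
        omega
    have hc := (card_le_card hsub).trans (card_union_le _ _)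
    rw [Nat.card_Icc, Nat.add_sub_cancel] at hc
    have hc' : (((Ioc M (M + X)).filter Nat.Prime).card : ℝ) ≤ (J : ℝ) +
        ((((Ioc M (M + X)).filter (fun v => v ≡ 0 [MOD 1] ∧
        ∀ l ∈ goodPrimes J 1, v % l ∉ ({0} : Finset ℕ))).card : ℕ) : ℝ) := by exact_mod_cast hc
    have h3 : ((X : ℝ) / (1 : ℕ)) / sieveSum 1 J 1 ≤ 20 * X / Real.log X := by
      have hpos : 0 < Real.log J / (2 * rhoz J 1) := by positivity
      calc ((X : ℝ) / (1 : ℕ)) / sieveSum 1 J 1 ≤ ((X : ℝ) / (1 : ℕ)) / (Real.log J / (2 * rhoz J 1)) := by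
            gcongr
        _ = 2 * X * rhoz J 1 / Real.log J := by
            push_cast
            field_simp
        _ ≤ 2 * X * 1 / Real.log J := by gcongr
        _ ≤ 20 * X / Real.log X := by
            rw [div_le_div_iff₀ hlogJ hlog]
            nlinarith
    have hJJ : (J : ℝ) ≤ (J : ℝ) ^ 4 := by
      calc (J : ℝ) = (J : ℝ) ^ 1 := (pow_one _).symm
        _ ≤ (J : ℝ) ^ 4 := pow_le_pow_right₀ (by linarith) (by norm_num)
    calc (((Ioc M (M + X)).filter Nat.Prime).card : ℝ)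
        ≤ 20 * X / Real.log X + 2 * (100 * X / Real.log X) := by linarith
      _ = 220 * (X / Real.log X) := by ring
      _ ≤ 1000 * (X / Real.log X) := by
          have : 0 ≤ (X : ℝ) / Real.log X := by positivity
          linarith
      _ = _ := by ring

end Pool.Agent.H24.LJ
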